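import Mathlib
import Pool.Agent.GridFree.Defs
import Pool.Agent.GridFree.Final

set_option autoImplicit false

namespace Pool.Agent.Results.MP_b5dac0_ag.Disproof

open Pool.Agent.GridFree

/-- For the pair `(s,t) = (2,t)` with any `t ≥ 3`, the boundedness assertion of the problem is
false: for every `d` there is an irreducible almost-`(2,t)`-grid-free hypersurface in
`ℙ² × ℙ²` that is not almost equal to `{F ∘ (id × σ) = 0}` for any `σ ∈ Bir(ℙ²)` and any
bihomogeneous `F` of degree at most `d` in `y`. -/
theorem result : ∀ t : ℕ, 3 ≤ t → ¬ BoundedUpToCremona 2 t :=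
  fun t ht => not_boundedUpToCremona t ht

end Pool.Agent.Results.MP_b5dac0_ag.Disproof
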